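import Mathlib
import Pool.Agent.W705.TWB.Hardy

set_option autoImplicit false

/-!
# Functions in `H¹₀(Ω)`, `Ω ⊆ ℝ³`: Sobolev and Hardy inequalities, dilations
-/

namespace Pool.Agent.TH297.HS

open MeasureTheory Filter Topology Set
open scoped ENNReal NNReal

noncomputable section

/-- Euclidean space. -/
abbrev E := EuclideanSpace ℝ (Fin 3)

/-- Test functions. -/
structure Test (Ω : Set E) (φ : E → ℝ) : Prop where
  smooth : ContDiff ℝ ((⊤ : ℕ∞) : WithTop ℕ∞) φ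
  cpt : HasCompactSupport φ
  supp : tsupport φ ⊆ Ω

/-- `u ∈ H¹₀(Ω)` with gradient `G`. -/
structure H10 (Ω : Set E) (u : E → ℝ) (G : E → E) : Prop where
  mu : MemLp u 2 volume
  mG : MemLp G 2 volume
  seq : ∃ φ : ℕ → E → ℝ, (∀ n, Test Ω (φ n)) ∧
    Tendsto (fun n => eLpNorm (fun x => φ n x - u x) 2 volume) atTop (𝓝 0) ∧
    Tendsto (fun n => eLpNorm (fun x => gradient (φ n) x - G x) 2 volume) atTop (𝓝 0)

lemma norm_gradient (φ : E → ℝ) (x : E) : ‖gradient φ x‖ = ‖fderiv ℝ φ x‖ := by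
  unfold gradient
  exact LinearIsometryEquiv.norm_map _ _

lemma continuous_gradient {φ : E → ℝ} (h : ContDiff ℝ ((⊤ : ℕ∞) : WithTop ℕ∞) φ) :
    Continuous (gradient φ) := by
  unfold gradient
  exact (LinearIsometryEquiv.continuous _).comp (h.continuous_fderiv (by simp))

lemma supp_gradient {φ : E → ℝ} (h : HasCompactSupport φ) : HasCompactSupport (gradient φ) := by
  have h1 : HasCompactSupport (fderiv ℝ φ) := h.fderiv ℝ
  refine h1.mono fun x hx => ?_
  rw [Function.mem_support] at hx ⊢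
  intro h0
  apply hx
  unfold gradient
  rw [h0, map_zero]

lemma gradient_sub' {φ ψ : E → ℝ} {x : E} (h1 : DifferentiableAt ℝ φ x)
    (h2 : DifferentiableAt ℝ ψ x) :
    gradient (fun y => φ y - ψ y) x = gradient φ x - gradient ψ x := by
  unfold gradient
  rw [fderiv_fun_sub h1 h2, map_sub]

lemma Test.memLp {Ω : Set E} {φ : E → ℝ} (h : Test Ω φ) (p : ℝ≥0∞) : MemLp φ p volume :=
  h.smooth.continuous.memLp_of_hasCompactSupport h.cpt

lemma Test.memLp_grad {Ω : Set E} {φ : E → ℝ} (h : Test Ω φ) (p : ℝ≥0∞) :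
    MemLp (gradient φ) p volume :=
  (continuous_gradient h.smooth).memLp_of_hasCompactSupport (supp_gradient h.cpt)

lemma Test.sub {Ω : Set E} {φ ψ : E → ℝ} (h1 : Test Ω φ) (h2 : Test Ω ψ) :
    Test Ω (fun x => φ x - ψ x) := by
  refine ⟨h1.smooth.sub h2.smooth, h1.cpt.sub h2.cpt, ?_⟩
  have : tsupport (fun x => φ x - ψ x) ⊆ tsupport φ ∪ tsupport ψ := tsupport_sub φ ψ
  exact this.trans (union_subset h1.supp h2.supp)

/-- A sequence of test functions converging almost everywhere. -/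
lemma H10.ae_seq {Ω : Set E} {u : E → ℝ} {G : E → E} (h : H10 Ω u G) :
    ∃ φ : ℕ → E → ℝ, (∀ n, Test Ω (φ n)) ∧
    (∀ᵐ x ∂(volume : Measure E), Tendsto (fun n => φ n x) atTop (𝓝 (u x))) ∧
    Tendsto (fun n => eLpNorm (fun x => φ n x - u x) 2 volume) atTop (𝓝 0) ∧
    Tendsto (fun n => eLpNorm (fun x => gradient (φ n) x - G x) 2 volume) atTop (𝓝 0) := by
  obtain ⟨φ, h1, h2, h3⟩ := h.seq
  have h4 : TendstoInMeasure volume φ atTop u :=
    tendstoInMeasure_of_tendsto_eLpNorm (by norm_num)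
      (fun n => ((h1 n).memLp 2).1) h.mu.1 h2
  obtain ⟨ns, hns, hae⟩ := h4.exists_seq_tendsto_ae
  exact ⟨fun n => φ (ns n), fun n => h1 _, hae, h2.comp hns.tendsto_atTop,
    h3.comp hns.tendsto_atTop⟩

/-- Weighted inequalities pass to the limit. -/
theorem H10.weighted {Ω : Set E} {w : E → ℝ} (hw : Measurable w) {q : ℝ≥0∞} {K : ℝ≥0}
    (hK : ∀ φ : E → ℝ, ContDiff ℝ ((⊤ : ℕ∞) : WithTop ℕ∞) φ → HasCompactSupport φ →
      eLpNorm (fun x => w x * φ x) q volume ≤ K * eLpNorm (gradient φ) 2 volume)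
    {u : E → ℝ} {G : E → E} (h : H10 Ω u G) :
    eLpNorm (fun x => w x * u x) q volume ≤ K * eLpNorm G 2 volume := by
  obtain ⟨φ, h1, h2, h3, h4⟩ := h.ae_seq
  have h5 := Lp.eLpNorm_lim_le_liminf_eLpNorm (p := q) (μ := (volume : Measure E))
    (f := fun n x => w x * φ n x)
    (fun n => (hw.aestronglyMeasurable.mul ((h1 n).memLp 2).1))
    (fun x => w x * u x) (h2.mono fun x hx => hx.const_mul _)
  refine h5.trans ?_
  have h6 : ∀ n, eLpNorm (fun x => w x * φ n x) q volume ≤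
      K * (eLpNorm (fun x => gradient (φ n) x - G x) 2 volume + eLpNorm G 2 volume) := by
    intro n
    refine (hK _ (h1 n).smooth (h1 n).cpt).trans ?_
    gcongr
    have h7 : gradient (φ n) = (fun x => gradient (φ n) x - G x) + G := by
      ext1 x; simp
    calc eLpNorm (gradient (φ n)) 2 volume
        = eLpNorm ((fun x => gradient (φ n) x - G x) + G) 2 volume := by rw [← h7]
      _ ≤ _ := eLpNorm_add_le (((h1 n).memLp_grad 2).1.sub h.mG.1) h.mG.1 (by norm_num)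
  have h8 : Tendsto (fun n => (K : ℝ≥0∞) * (eLpNorm (fun x => gradient (φ n) x - G x) 2 volume +
      eLpNorm G 2 volume)) atTop (𝓝 (K * (0 + eLpNorm G 2 volume))) := by
    refine ENNReal.Tendsto.const_mul ?_ (Or.inr ENNReal.coe_ne_top)
    exact h4.add tendsto_const_nhds
  rw [zero_add] at h8
  rw [← h8.liminf_eq]
  exact liminf_le_liminf (Eventually.of_forall h6)

/-- Sobolev's inequality. -/
theorem sobolev : ∃ S : ℝ≥0, ∀ (Ω : Set E) (u : E → ℝ) (G : E → E), H10 Ω u G →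
    eLpNorm u 6 volume ≤ S * eLpNorm G 2 volume := by
  refine ⟨SNormLESNormFDerivOfEqConst ℝ (volume : Measure E) ((2:NNReal):ℝ), fun Ω u G h => ?_⟩
  have := h.weighted (w := fun _ => 1) measurable_const (q := 6)
    (K := SNormLESNormFDerivOfEqConst ℝ (volume : Measure E) ((2:NNReal):ℝ)) (fun φ h1 h2 => ?_)
  · simpa using this
  · have hfr : Module.finrank ℝ E = 3 := by simp
    have h3 := eLpNorm_le_eLpNorm_fderiv_of_eq (volume : Measure E) (u := φ)
      (h1.of_le (by norm_num)) h2 (p := 2) (p' := 6) (by norm_num) (by rw [hfr]; norm_num)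
      (by rw [hfr]; norm_num)
    have h4 : eLpNorm (gradient φ) 2 volume = eLpNorm (fderiv ℝ φ) 2 volume :=
      eLpNorm_congr_norm_ae (Eventually.of_forall fun x => norm_gradient φ x)
    rw [h4]
    simpa using h3

lemma H10.memLp6 {Ω : Set E} {u : E → ℝ} {G : E → E} (h : H10 Ω u G) : MemLp u 6 volume := by
  obtain ⟨S, hS⟩ := sobolev
  exact ⟨h.mu.1, (hS Ω u G h).trans_lt (ENNReal.mul_lt_top ENNReal.coe_lt_top h.mG.2)⟩

lemma eLpNorm_two {F : Type*} [NormedAddCommGroup F] {f : E → F} (hf : MemLp f 2 volume) :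
    eLpNorm f 2 volume = ENNReal.ofReal (√(∫ x, ‖f x‖ ^ 2)) := by
  rw [hf.eLpNorm_eq_integral_rpow_norm (by norm_num) (by norm_num), Real.sqrt_eq_rpow]
  simp

open Pool.Agent.W734.TWB Pool.Agent.W705.TWB in
/-- The derivative of a real function, seen as a complex one. -/
lemma g3_ofReal {φ : E → ℝ} (h1 : ContDiff ℝ ((⊤ : ℕ∞) : WithTop ℕ∞) φ) (x : E) :
    g3 (fun x => (φ x : ℂ)) x = ‖gradient φ x‖ ^ 2 := by
  have hd : HasFDerivAt φ (fderiv ℝ φ x) x :=
    (h1.differentiable (by simp) x).hasFDerivAt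
  have hd2 : HasFDerivAt (fun x => (φ x : ℂ)) (Complex.ofRealCLM.comp (fderiv ℝ φ x)) x :=
    Complex.ofRealCLM.hasFDerivAt.comp x hd
  unfold g3
  rw [hd2.fderiv, EuclideanSpace.real_norm_sq_eq]
  refine Finset.sum_congr rfl fun k _ => ?_
  have h3 : (gradient φ x) k = fderiv ℝ φ x (EuclideanSpace.single k (1 : ℝ)) := by
    have h4 := congrArg (fun L => L (EuclideanSpace.single k (1 : ℝ)))
      (toDual_gradient (𝕜 := ℝ) (f := φ) (x := x))
    rw [← h4, InnerProductSpace.toDual_apply_apply, EuclideanSpace.inner_single_right]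
    simp
  rw [h3]
  simp

open Pool.Agent.W734.TWB Pool.Agent.W705.TWB in
/-- Hardy's inequality. -/
theorem hardy' {Ω : Set E} {u : E → ℝ} {G : E → E} (h : H10 Ω u G) :
    MemLp (fun x => ‖x‖⁻¹ * u x) 2 volume := by
  have hmeas : Measurable (fun x : E => ‖x‖⁻¹) := measurable_norm.inv
  have hmain := h.weighted (w := fun x => ‖x‖⁻¹) hmeas (q := 2) (K := 4) (fun φ h1 h2 => ?_)
  · refine ⟨hmeas.aestronglyMeasurable.mul h.mu.1, hmain.trans_lt ?_⟩
    exact ENNReal.mul_lt_top ENNReal.coe_lt_top h.mG.2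
  · have hv := hardy (fun x => (φ x : ℂ)) (Complex.ofRealCLM.contDiff.comp
      (h1.of_le (by norm_num))) (h2.comp_left (g := fun r : ℝ => (r : ℂ)) (by simp))
    obtain ⟨i1, i2⟩ := hv
    have hsq : ∀ x : E, ‖(φ x : ℂ)‖ ^ 2 / ‖x‖ ^ 2 = ‖‖x‖⁻¹ * φ x‖ ^ 2 := by
      intro x
      rw [Complex.norm_real, norm_mul, mul_pow, norm_inv, norm_norm, inv_pow]
      ring
    simp only [hsq] at i1 i2
    simp only [g3_ofReal h1] at i2
    have hm : MemLp (fun x : E => ‖x‖⁻¹ * φ x) 2 volume :=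
      (memLp_two_iff_integrable_sq_norm
        (hmeas.aestronglyMeasurable.mul h1.continuous.aestronglyMeasurable)).mpr i1
    have hg : MemLp (gradient φ) 2 volume :=
      (continuous_gradient h1).memLp_of_hasCompactSupport (supp_gradient h2)
    rw [eLpNorm_two hm, eLpNorm_two hg]
    have h5 : ((4 : ℝ≥0) : ℝ≥0∞) = ENNReal.ofReal 4 := by norm_num
    rw [h5, ← ENNReal.ofReal_mul (by norm_num)]
    apply ENNReal.ofReal_le_ofReal
    rw [Real.sqrt_le_left (by positivity), mul_pow, Real.sq_sqrt (by positivity)]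
    have : 0 ≤ ∫ x, ‖gradient φ x‖ ^ 2 := by positivity
    linarith

lemma H10.of_test {Ω : Set E} {φ : E → ℝ} (h : Test Ω φ) : H10 Ω φ (gradient φ) :=
  ⟨h.memLp 2, h.memLp_grad 2, fun _ => φ, fun _ => h, by simp, by simp⟩

lemma H10.sub {Ω : Set E} {u v : E → ℝ} {G D : E → E} (h1 : H10 Ω u G) (h2 : H10 Ω v D) :
    H10 Ω (fun x => u x - v x) (fun x => G x - D x) := by
  obtain ⟨φ, a1, a2, a3⟩ := h1.seq
  obtain ⟨ψ, b1, b2, b3⟩ := h2.seq
  refine ⟨h1.mu.sub h2.mu, h1.mG.sub h2.mG, fun n x => φ n x - ψ n x,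
    fun n => (a1 n).sub (b1 n), ?_, ?_⟩
  · have h := a2.add b2
    rw [add_zero] at h
    refine tendsto_of_tendsto_of_tendsto_of_le_of_le tendsto_const_nhds h (fun _ => zero_le)
      (fun n => ?_)
    have e : (fun x => φ n x - ψ n x - (u x - v x)) =
        (fun x => φ n x - u x) - (fun x => ψ n x - v x) := by ext1 x; simp; ring
    simp only
    rw [e]
    exact eLpNorm_sub_le (((a1 n).memLp 2).1.sub h1.mu.1) (((b1 n).memLp 2).1.sub h2.mu.1)
      (by norm_num)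
  · have h := a3.add b3
    rw [add_zero] at h
    refine tendsto_of_tendsto_of_tendsto_of_le_of_le tendsto_const_nhds h (fun _ => zero_le)
      (fun n => ?_)
    have e : (fun x => gradient (fun x => φ n x - ψ n x) x - (G x - D x)) =
        (fun x => gradient (φ n) x - G x) - (fun x => gradient (ψ n) x - D x) := by
      ext1 x
      rw [gradient_sub' ((a1 n).smooth.differentiable (by simp) x)
        ((b1 n).smooth.differentiable (by simp) x)]
      simp only [Pi.sub_apply]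
      abel
    simp only
    rw [e]
    exact eLpNorm_sub_le (((a1 n).memLp_grad 2).1.sub h1.mG.1)
      (((b1 n).memLp_grad 2).1.sub h2.mG.1) (by norm_num)

/-! ### Dilations -/

lemma eLpNorm_dil {F : Type*} [NormedAddCommGroup F] {f : E → F}
    (hf : AEStronglyMeasurable f volume) {c : ℝ} (hc : 0 < c) (p : ℝ≥0∞) (hp : p ≠ ∞) :
    eLpNorm (fun x => f (c • x)) p volume =
      (ENNReal.ofReal |(c ^ 3)⁻¹|) ^ (1 / p).toReal • eLpNorm f p volume := by
  have h1 := Measure.map_addHaar_smul (volume : Measure E) hc.ne'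
  have hm : AEMeasurable (fun x : E => c • x) volume := by fun_prop
  have hf' : AEStronglyMeasurable f (Measure.map (fun x : E => c • x) volume) := by
    rw [h1]; exact hf.smul_measure _
  have h2 := eLpNorm_map_measure (p := p) (f := fun x : E => c • x)
    (μ := (volume : Measure E)) (g := f) hf' hm
  have h3 : (fun x => f (c • x)) = f ∘ (fun x : E => c • x) := rfl
  rw [h3, ← h2, h1, eLpNorm_smul_measure_of_ne_top hp]
  simp

lemma eLpNorm_smul_dil {F : Type*} [NormedAddCommGroup F] [NormedSpace ℝ F] {f : E → F}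
    (hf : AEStronglyMeasurable f volume) {c : ℝ} (hc : 0 < c) (a : ℝ) :
    eLpNorm (fun x => a • f (c • x)) 2 volume = ‖a‖ₑ *
      ((ENNReal.ofReal |(c ^ 3)⁻¹|) ^ (1 / (2 : ℝ≥0∞)).toReal * eLpNorm f 2 volume) := by
  have h1 := eLpNorm_dil hf hc 2 (by norm_num)
  rw [smul_eq_mul] at h1
  rw [← h1, ← eLpNorm_const_smul]
  rfl

lemma aesm_dil {F : Type*} [NormedAddCommGroup F] {f : E → F}
    (hf : AEStronglyMeasurable f volume) {c : ℝ} (hc : 0 < c) :
    AEStronglyMeasurable (fun x => f (c • x)) volume := by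
  have h1 := Measure.map_addHaar_smul (volume : Measure E) hc.ne'
  have hm : AEMeasurable (fun x : E => c • x) volume := by fun_prop
  have hf' : AEStronglyMeasurable f (Measure.map (fun x : E => c • x) volume) := by
    rw [h1]; exact hf.smul_measure _
  exact hf'.comp_aemeasurable hm

lemma memLp_dil {F : Type*} [NormedAddCommGroup F] {f : E → F} {p : ℝ≥0∞} (hp : p ≠ ∞)
    (hf : MemLp f p volume) {c : ℝ} (hc : 0 < c) : MemLp (fun x => f (c • x)) p volume := by
  refine ⟨aesm_dil hf.1 hc, ?_⟩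
  rw [eLpNorm_dil hf.1 hc p hp, smul_eq_mul]
  exact ENNReal.mul_lt_top (ENNReal.rpow_lt_top_of_nonneg (by positivity) ENNReal.ofReal_ne_top)
    hf.2

/-- The dilated function. -/
def dil (κ : ℝ) (u : E → ℝ) (x : E) : ℝ := κ * u (κ ^ 2 • x)

/-- The dilated gradient. -/
def dilG (κ : ℝ) (G : E → E) (x : E) : E := κ ^ 3 • G (κ ^ 2 • x)

lemma gradient_dil {κ : ℝ} {φ : E → ℝ} (hd : Differentiable ℝ φ) (x : E) :
    gradient (dil κ φ) x = dilG κ (gradient φ) x := by
  unfold gradient dilG dil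
  have h0 : DifferentiableAt ℝ (fun x : E => φ (κ ^ 2 • x)) x :=
    (hd (κ ^ 2 • x)).comp x (differentiableAt_id.const_smul (κ ^ 2))
  have h1 : fderiv ℝ (fun x => κ * φ (κ ^ 2 • x)) x = κ • fderiv ℝ (fun x => φ (κ ^ 2 • x)) x :=
    fderiv_const_mul h0 κ
  rw [h1, fderiv_comp_smul, map_smul, map_smul, smul_smul]
  ring_nf

lemma Test.dil {Ω : Set E} (hΩ : ∀ x ∈ Ω, ∀ s : ℝ, 0 < s → s ≤ 1 → s • x ∈ Ω) {φ : E → ℝ}
    (h : Test Ω φ) {κ : ℝ} (hκ : 1 ≤ κ) : Test Ω (dil κ φ) := by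
  have hk0 : 0 < κ ^ 2 := by positivity
  have hk1 : 1 ≤ κ ^ 2 := one_le_pow₀ hκ
  have hsup : tsupport (HS.dil κ φ) ⊆ (fun x => κ ^ 2 • x) ⁻¹' tsupport φ := by
    refine closure_minimal (fun x hx => ?_) ((isClosed_tsupport φ).preimage (by fun_prop))
    rw [Function.mem_support] at hx
    apply subset_tsupport
    rw [Function.mem_support]
    intro h0
    apply hx
    unfold HS.dil
    rw [h0, mul_zero]
  have hsm : ContDiff ℝ ((⊤ : ℕ∞) : WithTop ℕ∞) (HS.dil κ φ) := by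
    have h1 : ContDiff ℝ ((⊤ : ℕ∞) : WithTop ℕ∞) (fun x : E => κ ^ 2 • x) :=
      contDiff_id.const_smul (κ ^ 2)
    exact contDiff_const.mul (h.smooth.comp h1)
  refine ⟨hsm, ?_, ?_⟩
  · have hc : IsCompact ((fun x : E => κ ^ 2 • x) ⁻¹' tsupport φ) := by
      have := (Homeomorph.smulOfNeZero (κ ^ 2) hk0.ne' : E ≃ₜ E).isCompact_preimage.mpr h.cpt
      exact this
    exact hc.of_isClosed_subset (isClosed_tsupport _) hsup
  · intro x hx
    have h1 : κ ^ 2 • x ∈ Ω := h.supp (hsup hx)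
    have h2 := hΩ _ h1 ((κ ^ 2)⁻¹) (by positivity) (inv_le_one_of_one_le₀ hk1)
    rwa [smul_smul, inv_mul_cancel₀ hk0.ne', one_smul] at h2

lemma memLp_dilu {u : E → ℝ} {p : ℝ≥0∞} (hp : p ≠ ∞) (hu : MemLp u p volume) {κ : ℝ} (hκ : 0 < κ) :
    MemLp (dil κ u) p volume :=
  (memLp_dil hp hu (c := κ ^ 2) (by positivity)).const_mul κ

lemma memLp_dilG {G : E → E} {p : ℝ≥0∞} (hp : p ≠ ∞) (hG : MemLp G p volume) {κ : ℝ} (hκ : 0 < κ) :
    MemLp (dilG κ G) p volume :=
  (memLp_dil hp hG (c := κ ^ 2) (by positivity)).const_smul (κ ^ 3)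

lemma H10.dil {Ω : Set E} (hΩ : ∀ x ∈ Ω, ∀ s : ℝ, 0 < s → s ≤ 1 → s • x ∈ Ω) {u : E → ℝ}
    {G : E → E} (h : H10 Ω u G) {κ : ℝ} (hκ : 1 ≤ κ) : H10 Ω (dil κ u) (dilG κ G) := by
  have hκ0 : 0 < κ := by linarith
  have hc0 : 0 < κ ^ 2 := by positivity
  obtain ⟨φ, a1, a2, a3⟩ := h.seq
  refine ⟨memLp_dilu (by norm_num) h.mu hκ0, memLp_dilG (by norm_num) h.mG hκ0,
    fun n => HS.dil κ (φ n), fun n => (a1 n).dil hΩ hκ, ?_, ?_⟩
  · have e : ∀ n, eLpNorm (fun x => HS.dil κ (φ n) x - HS.dil κ u x) 2 volume =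
        ‖κ‖ₑ * ((ENNReal.ofReal |((κ ^ 2) ^ 3)⁻¹|) ^ (1 / (2:ℝ≥0∞)).toReal *
          eLpNorm (fun x => φ n x - u x) 2 volume) := by
      intro n
      have h0 : AEStronglyMeasurable (fun x => φ n x - u x) volume :=
        ((a1 n).memLp 2).1.sub h.mu.1
      rw [← eLpNorm_smul_dil h0 hc0 κ]
      congr 1
      ext1 x
      simp only [HS.dil, smul_eq_mul]
      ring
    simp only [e]
    have h1 : Tendsto (fun n => ‖κ‖ₑ * ((ENNReal.ofReal |((κ ^ 2) ^ 3)⁻¹|) ^
        (1 / (2:ℝ≥0∞)).toReal * eLpNorm (fun x => φ n x - u x) 2 volume)) atTop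
        (𝓝 (‖κ‖ₑ * ((ENNReal.ofReal |((κ ^ 2) ^ 3)⁻¹|) ^ (1 / (2:ℝ≥0∞)).toReal * 0))) := by
      refine ENNReal.Tendsto.const_mul (ENNReal.Tendsto.const_mul a2 (Or.inr ?_)) (Or.inr ?_)
      · exact (ENNReal.rpow_lt_top_of_nonneg (by positivity) ENNReal.ofReal_ne_top).ne
      · exact enorm_ne_top
    simpa using h1
  · have e : ∀ n, eLpNorm (fun x => gradient (HS.dil κ (φ n)) x - dilG κ G x) 2 volume =
        ‖κ ^ 3‖ₑ * ((ENNReal.ofReal |((κ ^ 2) ^ 3)⁻¹|) ^ (1 / (2:ℝ≥0∞)).toReal *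
          eLpNorm (fun x => gradient (φ n) x - G x) 2 volume) := by
      intro n
      have h0 : AEStronglyMeasurable (fun x => gradient (φ n) x - G x) volume :=
        ((a1 n).memLp_grad 2).1.sub h.mG.1
      rw [← eLpNorm_smul_dil h0 hc0 (κ ^ 3)]
      congr 1
      ext1 x
      rw [gradient_dil ((a1 n).smooth.differentiable (by simp))]
      simp only [dilG]
      rw [smul_sub]
    simp only [e]
    have h1 : Tendsto (fun n => ‖κ ^ 3‖ₑ * ((ENNReal.ofReal |((κ ^ 2) ^ 3)⁻¹|) ^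
        (1 / (2:ℝ≥0∞)).toReal * eLpNorm (fun x => gradient (φ n) x - G x) 2 volume)) atTop
        (𝓝 (‖κ ^ 3‖ₑ * ((ENNReal.ofReal |((κ ^ 2) ^ 3)⁻¹|) ^ (1 / (2:ℝ≥0∞)).toReal * 0))) := by
      refine ENNReal.Tendsto.const_mul (ENNReal.Tendsto.const_mul a3 (Or.inr ?_)) (Or.inr ?_)
      · exact (ENNReal.rpow_lt_top_of_nonneg (by positivity) ENNReal.ofReal_ne_top).ne
      · exact enorm_ne_top
    simpa using h1

/-- Change of variables. -/
lemma integral_dil {F : Type*} [NormedAddCommGroup F] [NormedSpace ℝ F] (f : E → F) {c : ℝ}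
    (hc : 0 < c) : ∫ x, f (c • x) = (c ^ 3)⁻¹ • ∫ x, f x := by
  have := Measure.integral_comp_smul (volume : Measure E) f c
  rw [this, abs_of_nonneg (by positivity)]
  simp

end

end Pool.Agent.TH297.HS
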