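import Mathlib
import Pool.Agent.TH297.HS.Basic

set_option autoImplicit false

/-!
# The `L²` distance between a function and its dilation
-/

namespace Pool.Agent.TH297.HS

open MeasureTheory Filter Topology Set
open scoped ENNReal NNReal

noncomputable section

lemma cs_lintegral {a b : ℝ} {f : ℝ → ℝ≥0∞} (hf : Measurable f) :
    (∫⁻ s in Ioc a b, f s) ^ 2 ≤ ENNReal.ofReal (b - a) * ∫⁻ s in Ioc a b, f s ^ 2 := by
  have h := ENNReal.lintegral_mul_le_Lp_mul_Lq (volume.restrict (Ioc a b))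
    Real.HolderConjugate.two_two hf.aemeasurable
    (g := fun _ => 1) aemeasurable_const
  simp only [Pi.mul_apply, mul_one, ENNReal.one_rpow, lintegral_const, one_mul,
    Measure.restrict_apply_univ, Real.volume_Ioc] at h
  have h2 := pow_le_pow_left₀ (zero_le) h 2
  refine h2.trans (le_of_eq ?_)
  rw [mul_pow, ← ENNReal.rpow_natCast, ← ENNReal.rpow_mul, ← ENNReal.rpow_natCast,
    ← ENNReal.rpow_mul]
  norm_num
  rw [mul_comm]

/-- The generator of the dilations. -/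
def gen (φ : E → ℝ) (y : E) : ℝ := φ y + 2 * fderiv ℝ φ y y

lemma gen_cont {φ : E → ℝ} (h : ContDiff ℝ ((⊤ : ℕ∞) : WithTop ℕ∞) φ) : Continuous (gen φ) := by
  unfold gen
  have h1 : Continuous (fderiv ℝ φ) := h.continuous_fderiv (by simp)
  exact h.continuous.add (continuous_const.mul (h1.clm_apply continuous_id))

lemma dil_deriv {φ : E → ℝ} (h : ContDiff ℝ ((⊤ : ℕ∞) : WithTop ℕ∞) φ) (x : E) (s : ℝ) :
    HasDerivAt (fun s => dil s φ x) (gen φ (s ^ 2 • x)) s := by
  unfold dil gen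
  have h1 : HasDerivAt (fun s : ℝ => s ^ 2 • x) ((2 * s) • x) s := by
    have := (hasDerivAt_pow 2 s).smul_const x
    simpa using this
  have h2 : HasFDerivAt φ (fderiv ℝ φ (s ^ 2 • x)) (s ^ 2 • x) :=
    (h.differentiable (by simp) _).hasFDerivAt
  have h3 := h2.comp_hasDerivAt s h1
  have h4 := (hasDerivAt_id s).fun_mul h3
  refine h4.congr_deriv ?_
  simp only [Function.comp_def, id, map_smul, smul_eq_mul, one_mul]
  ring

lemma shift_test {Ω : Set E} {φ : E → ℝ} (h : Test Ω φ) {κ : ℝ} (hκ : 1 ≤ κ) :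
    eLpNorm (fun x => dil κ φ x - φ x) 2 volume ≤
      ENNReal.ofReal (κ - 1) * eLpNorm (gen φ) 2 volume := by
  have hg := gen_cont h.smooth
  have hpt : ∀ x, ‖dil κ φ x - φ x‖ₑ ^ 2 ≤ ENNReal.ofReal (κ - 1) *
      ∫⁻ s in Ioc 1 κ, ‖gen φ (s ^ 2 • x)‖ₑ ^ 2 := by
    intro x
    have hc : Continuous fun s : ℝ => gen φ (s ^ 2 • x) := hg.comp (by fun_prop)
    have h1 : ∫ s in (1:ℝ)..κ, gen φ (s ^ 2 • x) = dil κ φ x - dil 1 φ x :=
      intervalIntegral.integral_eq_sub_of_hasDerivAt (fun s _ => dil_deriv h.smooth x s)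
        (hc.intervalIntegrable _ _)
    have h2 : dil 1 φ x = φ x := by simp [dil]
    rw [← h2, ← h1, intervalIntegral.integral_of_le hκ]
    refine le_trans ?_ (cs_lintegral (f := fun s => ‖gen φ (s ^ 2 • x)‖ₑ) hc.measurable.enorm)
    exact pow_le_pow_left₀ zero_le (enorm_integral_le_lintegral_enorm _) 2
  have hmeas : Measurable (fun p : E × ℝ => ‖gen φ (p.2 ^ 2 • p.1)‖ₑ ^ 2) := by
    have : Continuous (fun p : E × ℝ => gen φ (p.2 ^ 2 • p.1)) := hg.comp (by fun_prop)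
    exact (this.measurable.enorm).pow_const 2
  have hint : ∫⁻ x, ‖dil κ φ x - φ x‖ₑ ^ 2 ≤
      ENNReal.ofReal (κ - 1) ^ 2 * ∫⁻ x, ‖gen φ x‖ₑ ^ 2 := by
    calc ∫⁻ x, ‖dil κ φ x - φ x‖ₑ ^ 2
        ≤ ∫⁻ x, ENNReal.ofReal (κ - 1) * ∫⁻ s in Ioc 1 κ, ‖gen φ (s ^ 2 • x)‖ₑ ^ 2 :=
          lintegral_mono hpt
      _ = ENNReal.ofReal (κ - 1) * ∫⁻ x, ∫⁻ s in Ioc 1 κ, ‖gen φ (s ^ 2 • x)‖ₑ ^ 2 :=
          lintegral_const_mul _ (hmeas.lintegral_prod_right')
      _ = ENNReal.ofReal (κ - 1) * ∫⁻ s in Ioc 1 κ, ∫⁻ x, ‖gen φ (s ^ 2 • x)‖ₑ ^ 2 := by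
          rw [lintegral_lintegral_swap hmeas.aemeasurable]
      _ ≤ ENNReal.ofReal (κ - 1) * ∫⁻ s in Ioc 1 κ, ∫⁻ x, ‖gen φ x‖ₑ ^ 2 := by
          refine mul_le_mul_right ?_ _
          refine setLIntegral_mono measurable_const fun s hs => ?_
          have hs0 : 0 < s := by linarith [hs.1]
          have hs1 : 1 ≤ s ^ 2 := one_le_pow₀ hs.1.le
          have e := Measure.map_addHaar_smul (volume : Measure E) (r := s ^ 2) (by positivity)
          have e2 : ∫⁻ x, ‖gen φ (s ^ 2 • x)‖ₑ ^ 2 =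
              ENNReal.ofReal |((s ^ 2) ^ Module.finrank ℝ E)⁻¹| * ∫⁻ x, ‖gen φ x‖ₑ ^ 2 := by
            rw [← smul_eq_mul, ← lintegral_smul_measure, ← e,
              lintegral_map ((hg.measurable.enorm).pow_const 2) (by fun_prop)]
          rw [e2]
          have e3 : ENNReal.ofReal |((s ^ 2) ^ Module.finrank ℝ E)⁻¹| ≤ 1 := by
            rw [ENNReal.ofReal_le_one, abs_of_nonneg (by positivity)]
            exact inv_le_one_of_one_le₀ (one_le_pow₀ hs1)
          calc _ ≤ 1 * ∫⁻ x, ‖gen φ x‖ₑ ^ 2 := by gcongr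
            _ = _ := one_mul _
      _ = _ := by
          rw [setLIntegral_const, Real.volume_Ioc]
          ring
  rw [eLpNorm_eq_lintegral_rpow_enorm_toReal (by norm_num) (by norm_num),
    eLpNorm_eq_lintegral_rpow_enorm_toReal (by norm_num) (by norm_num)]
  have e4 : ENNReal.ofReal (κ - 1) = (ENNReal.ofReal (κ - 1) ^ 2) ^ (1 / (2:ℝ≥0∞).toReal) := by
    rw [← ENNReal.rpow_natCast, ← ENNReal.rpow_mul]
    norm_num
  rw [e4, ← ENNReal.mul_rpow_of_nonneg _ _ (by norm_num)]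
  apply ENNReal.rpow_le_rpow _ (by norm_num)
  simpa using hint

lemma gen_bound {Ω : Set E} {R : ℝ} (hR : ∀ x ∈ Ω, ‖x‖ ≤ R) (hR0 : 0 ≤ R) {φ : E → ℝ}
    (h : Test Ω φ) : eLpNorm (gen φ) 2 volume ≤
      eLpNorm φ 2 volume + ENNReal.ofReal (2 * R) * eLpNorm (gradient φ) 2 volume := by
  have h1 : gen φ = φ + fun y => 2 * fderiv ℝ φ y y := by ext1 y; rfl
  have hm1 : AEStronglyMeasurable (fun y => 2 * fderiv ℝ φ y y) (volume : Measure E) := by
    have h2 : Continuous (fderiv ℝ φ) := h.smooth.continuous_fderiv (by simp)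
    exact (continuous_const.mul (h2.clm_apply continuous_id)).aestronglyMeasurable
  rw [h1]
  refine (eLpNorm_add_le (h.memLp 2).1 hm1 (by norm_num)).trans ?_
  gcongr
  have h3 : ∀ y, ‖2 * fderiv ℝ φ y y‖ ≤ ‖(2 * R) • gradient φ y‖ := by
    intro y
    rw [norm_smul, norm_gradient, norm_mul, Real.norm_of_nonneg (by positivity : 0 ≤ 2 * R)]
    by_cases hy : y ∈ tsupport φ
    · have h4 := hR y (h.supp hy)
      have h5 := (fderiv ℝ φ y).le_opNorm y
      have h6 : ‖fderiv ℝ φ y‖ * ‖y‖ ≤ ‖fderiv ℝ φ y‖ * R :=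
        mul_le_mul_of_nonneg_left h4 (norm_nonneg _)
      have h7 : ‖(2:ℝ)‖ = 2 := by norm_num
      rw [h7]
      linarith
    · have h4 : fderiv ℝ φ y = 0 := by
        by_contra hne
        exact hy (support_fderiv_subset ℝ (Function.mem_support.mpr hne))
      rw [h4]
      simp
  refine (eLpNorm_mono h3).trans (le_of_eq ?_)
  have h8 : (fun y => (2 * R) • gradient φ y) = (2 * R) • gradient φ := rfl
  rw [h8, eLpNorm_const_smul, Real.enorm_of_nonneg (by positivity)]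

/-- The `L²` distance to the dilation. -/
theorem shift {Ω : Set E} {R : ℝ} (hR : ∀ x ∈ Ω, ‖x‖ ≤ R) (hR0 : 0 ≤ R) {u : E → ℝ} {G : E → E} (h : H10 Ω u G)
    {κ : ℝ} (hκ : 1 ≤ κ) : eLpNorm (fun x => dil κ u x - u x) 2 volume ≤
      ENNReal.ofReal (κ - 1) *
        (eLpNorm u 2 volume + ENNReal.ofReal (2 * R) * eLpNorm G 2 volume) := by
  have hκ0 : 0 < κ := by linarith
  have hc0 : 0 < κ ^ 2 := by positivity
  obtain ⟨φ, a1, a2, a3⟩ := h.seq
  set c : ℝ≥0∞ := ‖κ‖ₑ * (ENNReal.ofReal |((κ ^ 2) ^ 3)⁻¹|) ^ (1 / (2:ℝ≥0∞)).toReal with hc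
  have hcfin : c ≠ ∞ := ENNReal.mul_ne_top enorm_ne_top
    (ENNReal.rpow_lt_top_of_nonneg (by positivity) ENNReal.ofReal_ne_top).ne
  have hdl : ∀ n, eLpNorm (fun x => HS.dil κ (φ n) x - HS.dil κ u x) 2 volume =
        c * eLpNorm (fun x => φ n x - u x) 2 volume := by
    intro n
    have h0 : AEStronglyMeasurable (fun x => φ n x - u x) volume :=
      ((a1 n).memLp 2).1.sub h.mu.1
    rw [hc, mul_assoc, ← eLpNorm_smul_dil h0 hc0 κ]
    congr 1
    ext1 x
    simp only [HS.dil, smul_eq_mul]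
    ring
  have hkey : ∀ n, eLpNorm (fun x => dil κ u x - u x) 2 volume ≤
      c * eLpNorm (fun x => φ n x - u x) 2 volume + eLpNorm (fun x => φ n x - u x) 2 volume +
      ENNReal.ofReal (κ - 1) * ((eLpNorm (fun x => φ n x - u x) 2 volume + eLpNorm u 2 volume) +
        ENNReal.ofReal (2 * R) * (eLpNorm (fun x => gradient (φ n) x - G x) 2 volume +
          eLpNorm G 2 volume)) := by
    intro n
    have m1 : AEStronglyMeasurable (fun x => HS.dil κ (φ n) x - HS.dil κ u x) volume :=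
      (memLp_dilu (by norm_num) ((a1 n).memLp 2) hκ0).1.sub
        (memLp_dilu (by norm_num) h.mu hκ0).1
    have m2 : AEStronglyMeasurable (fun x => φ n x - u x) volume :=
      ((a1 n).memLp 2).1.sub h.mu.1
    have m3 : AEStronglyMeasurable (fun x => HS.dil κ (φ n) x - φ n x) volume :=
      (memLp_dilu (by norm_num) ((a1 n).memLp 2) hκ0).1.sub ((a1 n).memLp 2).1
    have e : (fun x => dil κ u x - u x) = ((fun x => φ n x - u x) -
        (fun x => HS.dil κ (φ n) x - HS.dil κ u x)) + fun x => HS.dil κ (φ n) x - φ n x := by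
      ext1 x; simp only [Pi.add_apply, Pi.sub_apply]; ring
    rw [e]
    refine (eLpNorm_add_le (m2.sub m1) m3 (by norm_num)).trans ?_
    refine add_le_add ?_ ?_
    · refine (eLpNorm_sub_le m2 m1 (by norm_num)).trans ?_
      rw [hdl, add_comm]
    · refine (shift_test (a1 n) hκ).trans ?_
      gcongr
      refine (gen_bound hR hR0 (a1 n)).trans ?_
      gcongr
      · have h7 : φ n = (fun x => φ n x - u x) + u := by ext1 x; simp
        calc eLpNorm (φ n) 2 volume = eLpNorm ((fun x => φ n x - u x) + u) 2 volume := by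
              rw [← h7]
          _ ≤ _ := eLpNorm_add_le m2 h.mu.1 (by norm_num)
      · have h7 : gradient (φ n) = (fun x => gradient (φ n) x - G x) + G := by
          ext1 x; simp
        calc eLpNorm (gradient (φ n)) 2 volume
            = eLpNorm ((fun x => gradient (φ n) x - G x) + G) 2 volume := by rw [← h7]
          _ ≤ _ := eLpNorm_add_le (((a1 n).memLp_grad 2).1.sub h.mG.1) h.mG.1 (by norm_num)
  have hlim : Tendsto (fun n => c * eLpNorm (fun x => φ n x - u x) 2 volume +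
      eLpNorm (fun x => φ n x - u x) 2 volume +
      ENNReal.ofReal (κ - 1) * ((eLpNorm (fun x => φ n x - u x) 2 volume + eLpNorm u 2 volume) +
        ENNReal.ofReal (2 * R) * (eLpNorm (fun x => gradient (φ n) x - G x) 2 volume +
          eLpNorm G 2 volume))) atTop (𝓝 (c * 0 + 0 + ENNReal.ofReal (κ - 1) *
          ((0 + eLpNorm u 2 volume) + ENNReal.ofReal (2 * R) * (0 + eLpNorm G 2 volume)))) := by
    refine Tendsto.add (Tendsto.add (ENNReal.Tendsto.const_mul a2 (Or.inr hcfin)) a2) ?_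
    refine ENNReal.Tendsto.const_mul (Tendsto.add (a2.add tendsto_const_nhds) ?_)
      (Or.inr ENNReal.ofReal_ne_top)
    exact ENNReal.Tendsto.const_mul (a3.add tendsto_const_nhds) (Or.inr ENNReal.ofReal_ne_top)
  simp only [mul_zero, zero_add] at hlim
  exact ge_of_tendsto hlim (Eventually.of_forall hkey)

end

end Pool.Agent.TH297.HS
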