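import Mathlib
import Pool.Agent.TH297.HS.Shift

set_option autoImplicit false

/-!
# Nonexistence by dilation
-/

namespace Pool.Agent.TH297.HS

open MeasureTheory Filter Topology Set
open scoped ENNReal NNReal

noncomputable section

lemma holder_of {p q r : ℝ} (hp : 0 < p) (hq : 0 < q) (hr : 0 < r) (h : p⁻¹ + q⁻¹ = r⁻¹) :
    ENNReal.HolderTriple (ENNReal.ofReal p) (ENNReal.ofReal q) (ENNReal.ofReal r) := by
  constructor
  rw [← ENNReal.ofReal_inv_of_pos hp, ← ENNReal.ofReal_inv_of_pos hq,
    ← ENNReal.ofReal_inv_of_pos hr, ← ENNReal.ofReal_add (by positivity) (by positivity), h]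

/-- Products, with real exponents. -/
lemma mulp (p q r : ℝ) (hp : 0 < p) (hq : 0 < q) (hr : 0 < r) (h : p⁻¹ + q⁻¹ = r⁻¹)
    {f g : E → ℝ} (hf : MemLp f (ENNReal.ofReal p) volume)
    (hg : MemLp g (ENNReal.ofReal q) volume) :
    MemLp (fun x => f x * g x) (ENNReal.ofReal r) volume := by
  have := holder_of hp hq hr h
  exact hg.mul' hf

lemma hold {p q : ℝ≥0∞} [ENNReal.HolderTriple p q 1] {f g : E → ℝ} (hf : MemLp f p volume)
    (hg : MemLp g q volume) : Integrable (fun x => f x * g x) volume ∧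
      ∫ x, |f x * g x| ≤ (eLpNorm f p volume).toReal * (eLpNorm g q volume).toReal := by
  have h1 : MemLp (fun x => f x * g x) 1 volume := hg.mul' hf
  refine ⟨memLp_one_iff_integrable.mp h1, ?_⟩
  have h2 : eLpNorm (fun x => f x * g x) 1 volume ≤ eLpNorm f p volume * eLpNorm g q volume := by
    have := eLpNorm_smul_le_mul_eLpNorm (p := p) (q := q) (r := 1) hg.1 hf.1
    exact this
  have h3 : ∫ x, |f x * g x| = (eLpNorm (fun x => f x * g x) 1 volume).toReal := by
    rw [eLpNorm_one_eq_lintegral_enorm, ← integral_norm_eq_lintegral_enorm h1.1]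
    rfl
  rw [h3, ← ENNReal.toReal_mul]
  exact ENNReal.toReal_mono (ENNReal.mul_ne_top hf.2.ne hg.2.ne) h2

/-- Splitting of a potential in `L^{3/2}`. -/
lemma split {W : E → ℝ} (hW : MemLp W (ENNReal.ofReal (3 / 2)) volume) {ε : ℝ} (hε : 0 < ε) :
    ∃ K : ℝ, 0 ≤ K ∧ ∀ z : E → ℝ, MemLp z 6 volume → MemLp z 2 volume →
      ∫ x, z x ^ 2 * W x ≤ ε * (eLpNorm z 6 volume).toReal ^ 2 + K * ∫ x, z x ^ 2 := by
  set W' := hW.1.mk W with hW'
  have hsm : StronglyMeasurable W' := hW.1.stronglyMeasurable_mk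
  have hae : W =ᵐ[volume] W' := hW.1.ae_eq_mk
  have hWm : MemLp W' (ENNReal.ofReal (3 / 2)) volume := (memLp_congr_ae hae).mp hW
  obtain ⟨M, hM⟩ := hWm.eLpNorm_indicator_norm_ge_le hsm hε
  set A : Set E := {x | M ≤ ‖W' x‖₊} with hA
  have hAm : MeasurableSet A := by
    refine measurableSet_le measurable_const ?_
    exact hsm.measurable.nnnorm.coe_nnreal_real
  refine ⟨max M 0, le_max_right _ _, fun z hz6 hz2 => ?_⟩
  have hz3 : MemLp (fun x => z x ^ 2) (ENNReal.ofReal 3) volume := by
    have h6 : MemLp z (ENNReal.ofReal 6) volume := by simpa using hz6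
    have := mulp 6 6 3 (by norm_num) (by norm_num) (by norm_num) (by norm_num) h6 h6
    simpa [sq] using this
  have hh : ENNReal.HolderTriple (ENNReal.ofReal 3) (ENNReal.ofReal (3 / 2)) 1 := by
    have := holder_of (p := 3) (q := 3 / 2) (r := 1) (by norm_num) (by norm_num) (by norm_num)
      (by norm_num)
    simpa using this
  have hind : MemLp (A.indicator W') (ENNReal.ofReal (3 / 2)) volume := hWm.indicator hAm
  obtain ⟨i1, i2⟩ := hold hz3 hind
  obtain ⟨i3, -⟩ := hold hz3 hWm
  have hzi : Integrable (fun x => z x ^ 2) volume := by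
    have := (memLp_two_iff_integrable_sq_norm hz2.1).mp hz2
    simpa using this
  have hn3 : (eLpNorm (fun x => z x ^ 2) (ENNReal.ofReal 3) volume).toReal ≤
      (eLpNorm z 6 volume).toReal ^ 2 := by
    have h663 : ENNReal.HolderTriple 6 6 (ENNReal.ofReal 3) := by
      have := holder_of (p := 6) (q := 6) (r := 3) (by norm_num) (by norm_num) (by norm_num)
        (by norm_num)
      simpa using this
    have h1 := eLpNorm_smul_le_mul_eLpNorm (p := 6) (q := 6) (r := ENNReal.ofReal 3) hz6.1 hz6.1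
    have h2 : (z • z) = fun x => z x ^ 2 := by ext1 x; simp [sq]
    rw [h2] at h1
    rw [sq, ← ENNReal.toReal_mul]
    exact ENNReal.toReal_mono (ENNReal.mul_ne_top hz6.2.ne hz6.2.ne) h1
  have hn32 : (eLpNorm (A.indicator W') (ENNReal.ofReal (3 / 2)) volume).toReal ≤ ε := by
    have := ENNReal.toReal_mono ENNReal.ofReal_ne_top hM
    rwa [ENNReal.toReal_ofReal hε.le] at this
  calc ∫ x, z x ^ 2 * W x = ∫ x, z x ^ 2 * W' x :=
        integral_congr_ae (hae.mono fun x hx => by simp only [hx])
    _ ≤ ∫ x, (|z x ^ 2 * A.indicator W' x| + max M 0 * z x ^ 2) := by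
        refine integral_mono i3 (i1.abs.add (hzi.const_mul _)) fun x => ?_
        simp only
        by_cases hx : x ∈ A
        · rw [indicator_of_mem hx]
          have h1 := le_abs_self (z x ^ 2 * W' x)
          have h2 : 0 ≤ max M 0 * z x ^ 2 := mul_nonneg (le_max_right _ _) (sq_nonneg _)
          linarith
        · rw [indicator_of_notMem hx, mul_zero, abs_zero, zero_add]
          have h1 : ‖W' x‖ < M := by
            have : ¬ (M ≤ ‖W' x‖) := hx
            exact not_le.mp this
          have h2 : W' x ≤ max M 0 := ((le_abs_self _).trans h1.le).trans (le_max_left _ _)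
          rw [mul_comm]
          exact mul_le_mul_of_nonneg_right h2 (sq_nonneg _)
    _ = (∫ x, |z x ^ 2 * A.indicator W' x|) + max M 0 * ∫ x, z x ^ 2 := by
        rw [integral_add i1.abs (hzi.const_mul _), integral_const_mul]
    _ ≤ ε * (eLpNorm z 6 volume).toReal ^ 2 + max M 0 * ∫ x, z x ^ 2 := by
        refine add_le_add (i2.trans ?_) (le_refl _)
        rw [mul_comm]
        exact mul_le_mul hn32 hn3 ENNReal.toReal_nonneg hε.le

/-- Integrability data of a function in `L⁶` supported in a bounded set, with Hardy bound. -/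
structure Good (Ω : Set E) (u : E → ℝ) : Prop where
  m6 : MemLp u (ENNReal.ofReal 6) volume
  mh : MemLp (fun x => ‖x‖⁻¹ * u x) (ENNReal.ofReal 2) volume
  supp : ∀ x, x ∉ Ω → u x = 0

section good

variable {Ω : Set E} {u : E → ℝ}

lemma Good.m3 (h : Good Ω u) : MemLp (fun x => u x ^ 2) (ENNReal.ofReal 3) volume := by
  have := mulp 6 6 3 (by norm_num) (by norm_num) (by norm_num) (by norm_num) h.m6 h.m6
  simpa [sq] using this

lemma Good.mW (h : Good Ω u) : MemLp (fun x => ‖x‖⁻¹ * u x ^ 2) (ENNReal.ofReal (3 / 2)) volume := by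
  have := mulp 2 6 (3 / 2) (by norm_num) (by norm_num) (by norm_num) (by norm_num) h.mh h.m6
  refine this.ae_eq (Eventually.of_forall fun x => ?_)
  simp only
  ring

lemma Good.m65a (h : Good Ω u) (hΩ : volume Ω ≠ ∞) :
    MemLp (fun x => u x ^ 4) (ENNReal.ofReal (6 / 5)) volume := by
  have h1 : MemLp u (ENNReal.ofReal (24 / 5)) volume :=
    h.m6.mono_exponent_of_measure_support_ne_top h.supp hΩ
      (ENNReal.ofReal_le_ofReal (by norm_num))
  have h2 := mulp (24 / 5) (24 / 5) (12 / 5) (by norm_num) (by norm_num) (by norm_num)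
    (by norm_num) h1 h1
  have h3 := mulp (12 / 5) (12 / 5) (6 / 5) (by norm_num) (by norm_num) (by norm_num)
    (by norm_num) h2 h2
  refine h3.ae_eq (Eventually.of_forall fun x => ?_)
  simp only
  ring

lemma Good.m65b (h : Good Ω u) :
    MemLp (fun x => ‖x‖⁻¹ * u x ^ 3) (ENNReal.ofReal (6 / 5)) volume := by
  have := mulp 2 3 (6 / 5) (by norm_num) (by norm_num) (by norm_num) (by norm_num) h.mh h.m3
  refine this.ae_eq (Eventually.of_forall fun x => ?_)
  simp only
  ring

lemma int65 {f g : E → ℝ} (hf : MemLp f (ENNReal.ofReal (6 / 5)) volume)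
    (hg : MemLp g (ENNReal.ofReal 6) volume) : Integrable (fun x => f x * g x) volume := by
  have := mulp (6 / 5) 6 1 (by norm_num) (by norm_num) (by norm_num) (by norm_num) hf hg
  rw [ENNReal.ofReal_one] at this
  exact memLp_one_iff_integrable.mp this

lemma int32 {f g : E → ℝ} (hf : MemLp f (ENNReal.ofReal 3) volume)
    (hg : MemLp g (ENNReal.ofReal (3 / 2)) volume) : Integrable (fun x => f x * g x) volume := by
  have := mulp 3 (3 / 2) 1 (by norm_num) (by norm_num) (by norm_num) (by norm_num) hf hg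
  rw [ENNReal.ofReal_one] at this
  exact memLp_one_iff_integrable.mp this

end good

end

end Pool.Agent.TH297.HS
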