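import Mathlib
import Pool.Agent.TH297.HS.Main

set_option autoImplicit false

/-!
# Nonexistence by dilation: conclusion
-/

namespace Pool.Agent.TH297.HS

open MeasureTheory Filter Topology Set
open scoped ENNReal NNReal

noncomputable section

lemma H10.good {Ω : Set E} {u : E → ℝ} {G : E → E} (h : H10 Ω u G)
    (hs : ∀ x, x ∉ Ω → u x = 0) : Good Ω u :=
  ⟨by simpa using h.memLp6, by simpa using hardy' h, hs⟩

lemma tendsto_int {F : ℕ → E → ℝ} {f : E → ℝ} (hF : ∀ n, Integrable (F n) volume)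
    (hf : Integrable f volume) {b : ℕ → ℝ≥0∞} (hb : Tendsto b atTop (𝓝 0))
    (h : ∀ n, eLpNorm (fun x => F n x - f x) 1 volume ≤ b n) :
    Tendsto (fun n => ∫ x, F n x) atTop (𝓝 (∫ x, f x)) := by
  refine tendsto_integral_of_L1' f hf.1 (Eventually.of_forall hF) ?_
  exact tendsto_of_tendsto_of_tendsto_of_le_of_le tendsto_const_nhds hb (fun _ => zero_le)
    (fun n => h n)

lemma inner_int {F H : E → E} (hF : MemLp F 2 volume) (hH : MemLp H 2 volume) :
    Integrable (fun x => (inner ℝ (F x) (H x) : ℝ)) volume := by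
  have : ENNReal.HolderTriple 2 2 1 := by
    have := holder_of (p := 2) (q := 2) (r := 1) (by norm_num) (by norm_num) (by norm_num)
      (by norm_num)
    simpa using this
  have := MemLp.of_bilin (p := 2) (q := 2) (r := 1) (fun a b : E => (inner ℝ a b : ℝ)) 1 hF hH
    (hF.1.inner hH.1)
    (Eventually.of_forall fun x => by
      rw [one_mul]
      exact nnnorm_inner_le_nnnorm _ _)
  exact memLp_one_iff_integrable.mp this

lemma inner_eLp {F H : E → E} (hF : MemLp F 2 volume) (hH : MemLp H 2 volume) :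
    eLpNorm (fun x => (inner ℝ (F x) (H x) : ℝ)) 1 volume ≤
      eLpNorm F 2 volume * eLpNorm H 2 volume := by
  have : ENNReal.HolderTriple 2 2 1 := by
    have := holder_of (p := 2) (q := 2) (r := 1) (by norm_num) (by norm_num) (by norm_num)
      (by norm_num)
    simpa using this
  have := eLpNorm_le_eLpNorm_mul_eLpNorm_of_nnnorm (p := 2) (q := 2) (r := 1) hF.1 hH.1
    (fun a b : E => (inner ℝ a b : ℝ)) 1
    (Eventually.of_forall fun x => by
      rw [one_mul]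
      exact nnnorm_inner_le_nnnorm _ _)
  simpa using this

/-- The nonlinearity. -/
def hh (u : E → ℝ) (x : E) : ℝ := u x ^ 4 - ‖x‖⁻¹ * u x ^ 3

lemma hh_mem {Ω : Set E} {u : E → ℝ} (h : Good Ω u) (hΩ : volume Ω ≠ ∞) :
    MemLp (hh u) (ENNReal.ofReal (6 / 5)) volume := (h.m65a hΩ).sub h.m65b

/-- The weak equation holds for all test functions in `H¹₀(Ω)`. -/
theorem weak_ext {Ω : Set E} (hΩ : volume Ω ≠ ∞) {u : E → ℝ} {G : E → E} (hG : MemLp G 2 volume)
    (hu : Good Ω u) (hweak : ∀ ψ, Test Ω ψ →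
      ∫ x, (inner ℝ (G x) (gradient ψ x) + hh u x * ψ x) = 0)
    {w : E → ℝ} {D : E → E} (h : H10 Ω w D) :
    (∫ x, inner ℝ (G x) (D x)) + ∫ x, hh u x * w x = 0 := by
  obtain ⟨S, hS⟩ := sobolev
  obtain ⟨φ, a1, a2, a3⟩ := h.seq
  have hhm := hh_mem hu hΩ
  have hw6 : MemLp w (ENNReal.ofReal 6) volume := by simpa using h.memLp6
  have hφ6 : ∀ n, MemLp (φ n) (ENNReal.ofReal 6) volume := fun n => (a1 n).memLp _
  have t1 : Tendsto (fun n => ∫ x, (inner ℝ (G x) (gradient (φ n) x) : ℝ)) atTop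
      (𝓝 (∫ x, inner ℝ (G x) (D x))) := by
    refine tendsto_int (fun n => inner_int hG ((a1 n).memLp_grad 2)) (inner_int hG h.mG)
      (b := fun n => eLpNorm G 2 volume * eLpNorm (fun x => gradient (φ n) x - D x) 2 volume) ?_
      (fun n => ?_)
    · have := ENNReal.Tendsto.const_mul (a := eLpNorm G 2 volume) a3 (Or.inr hG.2.ne)
      simpa using this
    · have h0 : MemLp (fun x => gradient (φ n) x - D x) 2 volume :=
        ((a1 n).memLp_grad 2).sub h.mG
      have h1 := inner_eLp hG h0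
      simp only [inner_sub_right] at h1
      exact h1
  have t2 : Tendsto (fun n => ∫ x, hh u x * φ n x) atTop (𝓝 (∫ x, hh u x * w x)) := by
    refine tendsto_int (fun n => int65 hhm (hφ6 n)) (int65 hhm hw6)
      (b := fun n => eLpNorm (hh u) (ENNReal.ofReal (6 / 5)) volume *
        (S * eLpNorm (fun x => gradient (φ n) x - D x) 2 volume)) ?_ (fun n => ?_)
    · have h1 := ENNReal.Tendsto.const_mul (a := (S : ℝ≥0∞)) a3 (Or.inr ENNReal.coe_ne_top)
      have h2 := ENNReal.Tendsto.const_mul (a := eLpNorm (hh u) (ENNReal.ofReal (6 / 5)) volume)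
        h1 (Or.inr hhm.2.ne)
      simpa using h2
    · have hsub : H10 Ω (fun x => φ n x - w x) (fun x => gradient (φ n) x - D x) :=
        (H10.of_test (a1 n)).sub h
      have h6 := hS _ _ _ hsub
      have h65 : ENNReal.HolderTriple (ENNReal.ofReal (6 / 5)) (ENNReal.ofReal 6) 1 := by
        have := holder_of (p := 6 / 5) (q := 6) (r := 1) (by norm_num) (by norm_num)
          (by norm_num) (by norm_num)
        rwa [ENNReal.ofReal_one] at this
      have h1 := eLpNorm_smul_le_mul_eLpNorm (p := ENNReal.ofReal (6 / 5))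
        (q := ENNReal.ofReal 6) (r := 1) ((hφ6 n).sub hw6).1 hhm.1
      have e : (hh u • (φ n - w)) = fun x => hh u x * φ n x - hh u x * w x := by
        ext1 x; simp [mul_sub]
      rw [e] at h1
      refine h1.trans ?_
      gcongr
      have h7 : ENNReal.ofReal 6 = 6 := by simp
      rw [h7]
      exact h6
  have t3 : Tendsto (fun n => (∫ x, (inner ℝ (G x) (gradient (φ n) x) : ℝ)) +
      ∫ x, hh u x * φ n x) atTop (𝓝 ((∫ x, inner ℝ (G x) (D x)) + ∫ x, hh u x * w x)) :=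
    t1.add t2
  have t4 : ∀ n, (∫ x, (inner ℝ (G x) (gradient (φ n) x) : ℝ)) + ∫ x, hh u x * φ n x = 0 := by
    intro n
    rw [← integral_add (inner_int hG ((a1 n).memLp_grad 2)) (int65 hhm (hφ6 n))]
    exact hweak _ (a1 n)
  simp only [t4] at t3
  exact (tendsto_nhds_unique tendsto_const_nhds t3).symm

/-- Pointwise inequality. -/
lemma pointwise {u v : ℝ} (r : ℝ) (hr : 0 ≤ r) (hu : 0 ≤ u) (hv : 0 ≤ v) :
    (u ^ 4 - r * u ^ 3) * (v - u) ≤ 1 / 5 * (v ^ 5 - u ^ 5) + 1 / 4 * (r * u ^ 4 - r * v ^ 4) +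
      (u - v) ^ 2 * (r * u ^ 2) + 1 / 2 * ((u - v) ^ 2 * (r * v ^ 2)) := by
  have h1 : u ^ 4 * (v - u) ≤ 1 / 5 * (v ^ 5 - u ^ 5) := by
    nlinarith [mul_nonneg hu (sq_nonneg (u ^ 2 - v ^ 2)), mul_nonneg hv (sq_nonneg (u ^ 2 - v ^ 2)),
      mul_nonneg hu (sq_nonneg (u ^ 2 - u * v)), mul_nonneg hv (sq_nonneg (u ^ 2 - u * v)),
      mul_nonneg hu (sq_nonneg (v ^ 2 - u * v)), mul_nonneg hv (sq_nonneg (v ^ 2 - u * v))]
  have h2 : r * (u ^ 3 * (u - v)) ≤ r * (1 / 4 * (u ^ 4 - v ^ 4) + (u - v) ^ 2 * u ^ 2 +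
      1 / 2 * ((u - v) ^ 2 * v ^ 2)) := by
    apply mul_le_mul_of_nonneg_left _ hr
    nlinarith [mul_nonneg (sq_nonneg (u - v)) (sq_nonneg (u - v))]
  nlinarith

lemma sq_int {F : Type*} [NormedAddCommGroup F] {f : E → F} (hf : MemLp f 2 volume) :
    (eLpNorm f 2 volume).toReal ^ 2 = ∫ x, ‖f x‖ ^ 2 := by
  rw [eLpNorm_two hf, ENNReal.toReal_ofReal (Real.sqrt_nonneg _), Real.sq_sqrt (by positivity)]

/-- **Nonexistence.** -/
theorem no_sol {Ω : Set E} (hΩ : ∀ x ∈ Ω, ∀ s : ℝ, 0 < s → s ≤ 1 → s • x ∈ Ω)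
    (hΩf : volume Ω ≠ ∞) {R : ℝ} (hR : ∀ x ∈ Ω, ‖x‖ ≤ R) (hR0 : 0 ≤ R)
    {u : E → ℝ} {G : E → E} (h : H10 Ω u G) (hu0 : ∀ x, 0 ≤ u x) (hs : ∀ x, x ∉ Ω → u x = 0)
    (hweak : ∀ ψ, Test Ω ψ → ∫ x, (inner ℝ (G x) (gradient ψ x) + hh u x * ψ x) = 0)
    (hM : 0 < ∫ x, u x ^ 5) : False := by
  obtain ⟨S, hS⟩ := sobolev
  have hgu := h.good hs
  set M := ∫ x, u x ^ 5 with hMdef
  obtain ⟨K, hK0, hK⟩ := split hgu.mW (ε := 1 / (3 * (S:ℝ) ^ 2 + 3)) (by positivity)
  set ε : ℝ := 1 / (3 * (S:ℝ) ^ 2 + 3) with hε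
  set C : ℝ := (eLpNorm u 2 volume + ENNReal.ofReal (2 * R) * eLpNorm G 2 volume).toReal with hC
  have hC0 : 0 ≤ C := ENNReal.toReal_nonneg
  have hCfin : eLpNorm u 2 volume + ENNReal.ofReal (2 * R) * eLpNorm G 2 volume ≠ ∞ :=
    ENNReal.add_ne_top.mpr ⟨h.mu.2.ne, ENNReal.mul_ne_top ENNReal.ofReal_ne_top h.mG.2.ne⟩
  -- the main inequality
  have main : ∀ κ : ℝ, 1 < κ → κ ^ 2 ≤ 2 → 2 / 5 * (1 - κ⁻¹) * M ≤ 6 * K * C ^ 2 * (κ - 1) ^ 2 := by
    intro κ hκ1 hκ2
    have hκ0 : 0 < κ := by linarith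
    have hc0 : 0 < κ ^ 2 := by positivity
    have hv := h.dil hΩ hκ1.le
    set v := dil κ u with hvdef
    have hv0 : ∀ x, 0 ≤ v x := fun x => mul_nonneg hκ0.le (hu0 _)
    have hvs : ∀ x, x ∉ Ω → v x = 0 := by
      intro x hx
      have : u (κ ^ 2 • x) = 0 := by
        by_contra hne
        have h1 : κ ^ 2 • x ∈ Ω := by
          by_contra h2
          exact hne (hs _ h2)
        have h2 := hΩ _ h1 ((κ ^ 2)⁻¹) (by positivity)
          (inv_le_one_of_one_le₀ (one_le_pow₀ hκ1.le))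
        rw [smul_smul, inv_mul_cancel₀ hc0.ne', one_smul] at h2
        exact hx h2
      rw [hvdef, dil, this, mul_zero]
    have hgv := hv.good hvs
    have hz := h.sub hv
    set z : E → ℝ := fun x => u x - v x with hzdef
    have hzs : ∀ x, x ∉ Ω → z x = 0 := fun x hx => by rw [hzdef]; simp [hs x hx, hvs x hx]
    have hgz := hz.good hzs
    -- integrability
    have hhm := hh_mem hgu hΩf
    have i0 : Integrable (fun x => hh u x * (v x - u x)) volume := by
      have h1 : MemLp (fun x => v x - u x) (ENNReal.ofReal 6) volume := hgv.m6.sub hgu.m6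
      exact int65 hhm h1
    have iu5 : Integrable (fun x => u x ^ 5) volume := by
      refine (int65 (hgu.m65a hΩf) hgu.m6).congr (Eventually.of_forall fun x => ?_)
      simp only; ring
    have iv5 : Integrable (fun x => v x ^ 5) volume := by
      refine (int65 (hgv.m65a hΩf) hgv.m6).congr (Eventually.of_forall fun x => ?_)
      simp only; ring
    have iu4 : Integrable (fun x => ‖x‖⁻¹ * u x ^ 4) volume := by
      refine (int65 hgu.m65b hgu.m6).congr (Eventually.of_forall fun x => ?_)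
      simp only; ring
    have iv4 : Integrable (fun x => ‖x‖⁻¹ * v x ^ 4) volume := by
      refine (int65 hgv.m65b hgv.m6).congr (Eventually.of_forall fun x => ?_)
      simp only; ring
    have iI1 : Integrable (fun x => z x ^ 2 * (‖x‖⁻¹ * u x ^ 2)) volume := int32 hgz.m3 hgu.mW
    have iI2 : Integrable (fun x => z x ^ 2 * (‖x‖⁻¹ * v x ^ 2)) volume := int32 hgz.m3 hgv.mW
    -- changes of variables
    have e5 : ∫ x, v x ^ 5 = κ⁻¹ * M := by
      have h1 := integral_dil (fun x : E => u x ^ 5) hc0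
      have h2 : ∀ x, v x ^ 5 = κ ^ 5 * (u (κ ^ 2 • x) ^ 5) := fun x => by
        rw [hvdef, dil]; ring
      simp only [h2]
      rw [integral_const_mul, h1, smul_eq_mul, ← hMdef]
      field_simp
    have e4 : ∫ x, ‖x‖⁻¹ * v x ^ 4 = ∫ x, ‖x‖⁻¹ * u x ^ 4 := by
      have h1 := integral_dil (fun x : E => ‖x‖⁻¹ * u x ^ 4) hc0
      have h2 : ∀ x, ‖x‖⁻¹ * v x ^ 4 = κ ^ 6 * (‖κ ^ 2 • x‖⁻¹ * u (κ ^ 2 • x) ^ 4) := fun x => by
        rw [hvdef, dil, norm_smul, Real.norm_of_nonneg hc0.le, mul_inv]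
        field_simp
      simp only [h2]
      rw [integral_const_mul, h1, smul_eq_mul]
      field_simp
    -- energy
    set Gv := dilG κ G with hGv
    have eG : ∫ x, ‖Gv x‖ ^ 2 = ∫ x, ‖G x‖ ^ 2 := by
      have h1 := integral_dil (fun x : E => ‖G x‖ ^ 2) hc0
      have h2 : ∀ x, ‖Gv x‖ ^ 2 = κ ^ 6 * ‖G (κ ^ 2 • x)‖ ^ 2 := fun x => by
        rw [hGv, dilG, norm_smul, Real.norm_of_nonneg (by positivity)]
        ring
      simp only [h2]
      rw [integral_const_mul, h1, smul_eq_mul]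
      field_simp
    have iG : Integrable (fun x => ‖G x‖ ^ 2) volume :=
      (memLp_two_iff_integrable_sq_norm h.mG.1).mp h.mG
    have iGv : Integrable (fun x => ‖Gv x‖ ^ 2) volume :=
      (memLp_two_iff_integrable_sq_norm hv.mG.1).mp hv.mG
    have iGG := inner_int h.mG hv.mG
    have w1 := weak_ext hΩf h.mG hgu hweak h
    have w2 := weak_ext hΩf h.mG hgu hweak hv
    have w1' : (∫ x, (inner ℝ (G x) (G x) : ℝ)) = ∫ x, ‖G x‖ ^ 2 := by
      simp only [real_inner_self_eq_norm_sq]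
    rw [w1'] at w1
    set En := ∫ x, ‖G x - Gv x‖ ^ 2 with hEn
    have hEn0 : 0 ≤ En := by positivity
    have eEn : En = 2 * ∫ x, hh u x * (v x - u x) := by
      have h1 : ∀ x, ‖G x - Gv x‖ ^ 2 = ‖G x‖ ^ 2 - 2 * inner ℝ (G x) (Gv x) + ‖Gv x‖ ^ 2 :=
        fun x => norm_sub_sq_real _ _
      have h2 : En = ∫ x, (‖G x‖ ^ 2 - 2 * inner ℝ (G x) (Gv x) + ‖Gv x‖ ^ 2) := by
        rw [hEn]; simp only [h1]
      have j0 : Integrable (fun x => 2 * (inner ℝ (G x) (Gv x) : ℝ)) volume := iGG.const_mul 2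
      have j1 : Integrable (fun x => ‖G x‖ ^ 2 - 2 * (inner ℝ (G x) (Gv x) : ℝ)) volume :=
        iG.sub j0
      rw [h2, integral_add j1 iGv, integral_sub iG j0, integral_const_mul, eG]
      have h3 : ∫ x, hh u x * (v x - u x) = (∫ x, hh u x * v x) - ∫ x, hh u x * u x := by
        simp only [mul_sub]
        exact integral_sub (int65 hhm hgv.m6) (int65 hhm hgu.m6)
      rw [h3]
      linarith
    -- integrated inequality
    set I1 := ∫ x, z x ^ 2 * (‖x‖⁻¹ * u x ^ 2) with hI1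
    set I2 := ∫ x, z x ^ 2 * (‖x‖⁻¹ * v x ^ 2) with hI2
    have hint : ∫ x, hh u x * (v x - u x) ≤ 1 / 5 * (κ⁻¹ * M - M) + I1 + 1 / 2 * I2 := by
      have h1 : ∫ x, hh u x * (v x - u x) ≤ ∫ x, (1 / 5 * (v x ^ 5 - u x ^ 5) +
          1 / 4 * (‖x‖⁻¹ * u x ^ 4 - ‖x‖⁻¹ * v x ^ 4) + z x ^ 2 * (‖x‖⁻¹ * u x ^ 2) +
          1 / 2 * (z x ^ 2 * (‖x‖⁻¹ * v x ^ 2))) := by
        refine integral_mono i0 (((((iv5.sub iu5).const_mul _).add
          ((iu4.sub iv4).const_mul _)).add iI1).add (iI2.const_mul _)) fun x => ?_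
        exact pointwise ‖x‖⁻¹ (by positivity) (hu0 x) (hv0 x)
      refine h1.trans (le_of_eq ?_)
      have j1 : Integrable (fun x => 1 / 5 * (v x ^ 5 - u x ^ 5)) volume :=
        (iv5.sub iu5).const_mul _
      have j2 : Integrable (fun x => 1 / 4 * (‖x‖⁻¹ * u x ^ 4 - ‖x‖⁻¹ * v x ^ 4)) volume :=
        (iu4.sub iv4).const_mul _
      have j3 : Integrable (fun x => 1 / 5 * (v x ^ 5 - u x ^ 5) +
          1 / 4 * (‖x‖⁻¹ * u x ^ 4 - ‖x‖⁻¹ * v x ^ 4)) volume := j1.add j2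
      have j4 : Integrable (fun x => 1 / 5 * (v x ^ 5 - u x ^ 5) +
          1 / 4 * (‖x‖⁻¹ * u x ^ 4 - ‖x‖⁻¹ * v x ^ 4) + z x ^ 2 * (‖x‖⁻¹ * u x ^ 2)) volume :=
        j3.add iI1
      have j5 : Integrable (fun x => 1 / 2 * (z x ^ 2 * (‖x‖⁻¹ * v x ^ 2))) volume :=
        iI2.const_mul _
      rw [integral_add j4 j5, integral_add j3 iI1, integral_add j1 j2,
        integral_const_mul, integral_const_mul, integral_const_mul,
        integral_sub iv5 iu5, integral_sub iu4 iv4, e5, e4]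
      ring
    -- bounds for z
    set N := (eLpNorm z 6 volume).toReal with hN
    have hN0 : 0 ≤ N := ENNReal.toReal_nonneg
    have hNE : N ^ 2 ≤ (S:ℝ) ^ 2 * En := by
      have h1 := hS _ _ _ hz
      have h2 := ENNReal.toReal_mono (ENNReal.mul_ne_top ENNReal.coe_ne_top hz.mG.2.ne) h1
      rw [ENNReal.toReal_mul, ENNReal.coe_toReal] at h2
      have h3 := sq_int hz.mG
      have h4 := pow_le_pow_left₀ hN0 h2 2
      rw [mul_pow, h3] at h4
      exact h4
    set Z := ∫ x, z x ^ 2 with hZ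
    have hZb : Z ≤ (κ - 1) ^ 2 * C ^ 2 := by
      have h1 := shift hR hR0 h hκ1.le
      have h2 := ENNReal.toReal_mono (ENNReal.mul_ne_top ENNReal.ofReal_ne_top hCfin) h1
      rw [ENNReal.toReal_mul, ENNReal.toReal_ofReal (by linarith), ← hC] at h2
      have hvu : MemLp (fun x => v x - u x) 2 volume := hv.mu.sub h.mu
      have h3 := sq_int hvu
      have h4 := pow_le_pow_left₀ ENNReal.toReal_nonneg h2 2
      rw [mul_pow] at h4
      have h5 : Z = ∫ x, ‖v x - u x‖ ^ 2 := by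
        rw [hZ]
        refine integral_congr_ae (Eventually.of_forall fun x => ?_)
        simp only [hzdef, Real.norm_eq_abs, sq_abs]
        ring
      rw [h5, ← h3]
      exact h4
    have hI1b : I1 ≤ ε * N ^ 2 + K * Z := hK z (by simpa using hgz.m6) hz.mu
    -- the second term, by a change of variables
    have hI2b : I2 ≤ ε * N ^ 2 + K * (κ ^ 4 * Z) := by
      set zt : E → ℝ := fun y => z ((κ ^ 2)⁻¹ • y) with hzt
      have hci : 0 < (κ ^ 2)⁻¹ := by positivity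
      have hzt6 : MemLp zt 6 volume := memLp_dil (by norm_num) hz.memLp6 hci
      have hzt2 : MemLp zt 2 volume := memLp_dil (by norm_num) hz.mu hci
      have h1 := hK zt hzt6 hzt2
      have h2 : I2 = κ ^ 4 * ∫ x, zt (κ ^ 2 • x) ^ 2 * (‖κ ^ 2 • x‖⁻¹ * u (κ ^ 2 • x) ^ 2) := by
        rw [hI2, ← integral_const_mul]
        refine integral_congr_ae (Eventually.of_forall fun x => ?_)
        simp only [hzt, hvdef, dil]
        rw [smul_smul, inv_mul_cancel₀ hc0.ne', one_smul, norm_smul,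
          Real.norm_of_nonneg hc0.le, mul_inv]
        field_simp
      have h3 : I2 = κ ^ 4 * ((κ ^ 2) ^ 3)⁻¹ * ∫ x, zt x ^ 2 * (‖x‖⁻¹ * u x ^ 2) := by
        have h0 := integral_dil (fun y : E => zt y ^ 2 * (‖y‖⁻¹ * u y ^ 2)) hc0
        rw [smul_eq_mul] at h0
        rw [h2, h0]
        ring
      have h4 : ∫ x, zt x ^ 2 = κ ^ 6 * Z := by
        have h5 := integral_dil (fun x => z x ^ 2) hci
        simp only [smul_eq_mul] at h5
        rw [hzt, h5, hZ]
        field_simp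
      have h6 : (eLpNorm zt 6 volume).toReal = κ * N := by
        rw [hzt, eLpNorm_dil hz.mu.1 hci 6 (by norm_num), smul_eq_mul, ENNReal.toReal_mul,
          ← ENNReal.toReal_rpow, ENNReal.toReal_ofReal (abs_nonneg _), ← hN]
        congr 1
        rw [abs_of_nonneg (by positivity)]
        have h7 : (((κ ^ 2)⁻¹ ^ 3)⁻¹ : ℝ) = κ ^ 6 := by
          field_simp
        rw [h7]
        have h8 : (1 / (6:ℝ≥0∞)).toReal = ((6:ℕ):ℝ)⁻¹ := by simp
        rw [h8]
        exact Real.pow_rpow_inv_natCast hκ0.le (by norm_num)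
      rw [h4, h6] at h1
      rw [h3]
      have h9 : κ ^ 4 * ((κ ^ 2) ^ 3)⁻¹ * (ε * (κ * N) ^ 2 + K * (κ ^ 6 * Z)) =
          ε * N ^ 2 + K * (κ ^ 4 * Z) := by
        field_simp
      rw [← h9]
      exact mul_le_mul_of_nonneg_left h1 (by positivity)
    have hZ0 : 0 ≤ Z := by positivity
    -- conclusion
    have hεS : ε * 3 * (S:ℝ) ^ 2 ≤ 1 := by
      rw [hε]
      have : 0 < 3 * (S:ℝ) ^ 2 + 3 := by positivity
      field_simp
      linarith
    have hε0 : 0 ≤ ε := by positivity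
    have k1 : 2 * (ε * N ^ 2) + ε * N ^ 2 ≤ En := by
      have : ε * N ^ 2 ≤ ε * ((S:ℝ) ^ 2 * En) := mul_le_mul_of_nonneg_left hNE hε0
      have h2 : ε * 3 * (S:ℝ) ^ 2 * En ≤ 1 * En := mul_le_mul_of_nonneg_right hεS hEn0
      linarith
    have k2 : K * (κ ^ 4 * Z) ≤ 4 * (K * Z) := by
      have h4 : κ ^ 4 ≤ 4 := by nlinarith
      have : κ ^ 4 * Z ≤ 4 * Z := mul_le_mul_of_nonneg_right h4 hZ0
      have := mul_le_mul_of_nonneg_left this hK0
      linarith
    have k3 : K * Z ≤ K * ((κ - 1) ^ 2 * C ^ 2) := mul_le_mul_of_nonneg_left hZb hK0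
    have k4 : 2 / 5 * (1 - κ⁻¹) * M = -(2 / 5 * (κ⁻¹ * M - M)) := by ring
    have k5 : 6 * K * C ^ 2 * (κ - 1) ^ 2 = 6 * (K * ((κ - 1) ^ 2 * C ^ 2)) := by ring
    rw [k4, k5]
    linarith
  -- choose κ close to one
  set A := 15 * K * C ^ 2 with hA
  have hA0 : 0 ≤ A := by positivity
  set δ : ℝ := min (1 / 4) (M / (4 * (A + 1))) with hδ
  have hδ0 : 0 < δ := lt_min (by norm_num) (by positivity)
  have hδ1 : δ ≤ 1 / 4 := min_le_left _ _
  have hδ2 : δ ≤ M / (4 * (A + 1)) := min_le_right _ _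
  have hm := main (1 + δ) (by linarith) (by nlinarith)
  have h1 : 1 - (1 + δ)⁻¹ = δ / (1 + δ) := by field_simp; ring
  rw [h1] at hm
  have h2 : 2 / 5 * (δ / (1 + δ)) * M = δ * (2 / 5 * M / (1 + δ)) := by ring
  have h3 : 6 * K * C ^ 2 * (1 + δ - 1) ^ 2 = δ * (2 / 5 * A * δ) := by rw [hA]; ring
  rw [h2, h3] at hm
  have h4 := le_of_mul_le_mul_left hm hδ0
  rw [div_le_iff₀ (by linarith)] at h4
  have h5 : δ * (4 * (A + 1)) ≤ M := by
    rwa [le_div_iff₀ (by positivity)] at hδ2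
  have h6 : A * δ * (1 + δ) ≤ A * δ * (5 / 4) :=
    mul_le_mul_of_nonneg_left (by linarith) (by positivity)
  nlinarith

end

end Pool.Agent.TH297.HS
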